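import Mathlib.RingTheory.MvPolynomial.Homogeneous
import Mathlib.Algebra.MvPolynomial.Funext
import Mathlib.Algebra.Polynomial.Roots
import Mathlib.Analysis.SpecialFunctions.Pow.Real
import Mathlib.Analysis.Complex.Basic
import Mathlib.Tactic

set_option autoImplicit false

open MvPolynomial

namespace Pool.Agent.Results.MP_3ab8ef_ag.DualVinberg

/-- The univariate polynomial `t ↦ p(t e - x)`. -/
noncomputable def charPoly {n : ℕ} (p : MvPolynomial (Fin n) ℝ) (e x : Fin n → ℝ) : Polynomial ℝ :=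
  aeval (fun i => Polynomial.C (e i) * Polynomial.X - Polynomial.C (x i)) p

/-- `p` is hyperbolic along `e`: `p` is homogeneous, `p(e) > 0` and for every real `x` the
univariate polynomial `t ↦ p(x - t e)` has only real roots. -/
def IsHyperbolic {n : ℕ} (p : MvPolynomial (Fin n) ℝ) (e : Fin n → ℝ) : Prop :=
  (∃ d, p.IsHomogeneous d) ∧ 0 < eval e p ∧
    ∀ (x : Fin n → ℝ) (z : ℂ), aeval (fun i => (x i : ℂ) - z * (e i : ℂ)) p = 0 → z.im = 0

/-- The hyperbolicity cone `Λ₊(p, e)`: the `x` for which all roots of `t ↦ p(t e - x)` are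
nonnegative. -/
def hypCone {n : ℕ} (p : MvPolynomial (Fin n) ℝ) (e : Fin n → ℝ) : Set (Fin n → ℝ) :=
  {x | ∀ t ∈ (charPoly p e x).roots, 0 ≤ t}

/-- The rank of `x`: the number of nonzero eigenvalues (roots of `t ↦ p(t e - x)`), counted with
multiplicity. -/
noncomputable def rank {n : ℕ} (p : MvPolynomial (Fin n) ℝ) (e x : Fin n → ℝ) : ℕ :=
  ((charPoly p e x).roots.filter (· ≠ 0)).card

/-- `x` generates an extreme ray of the convex cone `K`. -/
def IsExtremeRay {n : ℕ} (K : Set (Fin n → ℝ)) (x : Fin n → ℝ) : Prop :=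
  x ∈ K ∧ x ≠ 0 ∧ ∀ u ∈ K, ∀ v ∈ K, (∃ s : ℝ, 0 ≤ s ∧ u + v = s • x) →
    (∃ s : ℝ, 0 ≤ s ∧ u = s • x) ∧ (∃ s : ℝ, 0 ≤ s ∧ v = s • x)

/-- `K` is a pointed, full-dimensional closed convex cone whose automorphism group acts
transitively on its interior. -/
structure IsHomogeneousCone {n : ℕ} (K : Set (Fin n → ℝ)) : Prop where
  closed : IsClosed K
  add_mem : ∀ x ∈ K, ∀ y ∈ K, x + y ∈ K
  smul_mem : ∀ c : ℝ, 0 ≤ c → ∀ x ∈ K, c • x ∈ K
  pointed : ∀ x ∈ K, -x ∈ K → x = 0
  full : (interior K).Nonempty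
  transitive : ∀ u ∈ interior K, ∀ v ∈ interior K,
    ∃ A : (Fin n → ℝ) ≃ₗ[ℝ] (Fin n → ℝ), A '' K = K ∧ A u = v

/-- The five-dimensional cone of all `(a, b, c, d, e)` such that the symmetric matrices
`[[a, b], [b, d]]` and `[[a, c], [c, e]]` are positive semidefinite (the dual Vinberg cone). -/
def cone : Set (Fin 5 → ℝ) :=
  {x | 0 ≤ x 0 ∧ 0 ≤ x 3 ∧ 0 ≤ x 4 ∧ x 1 ^ 2 ≤ x 0 * x 3 ∧ x 2 ^ 2 ≤ x 0 * x 4}

/-- The vector generating the extreme ray we look at. -/
def ray₀ : Fin 5 → ℝ := ![1, 0, 0, 0, 0]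

/-! ### The cone -/

lemma cross {a b d a' b' d' : ℝ} (ha : 0 ≤ a) (hd : 0 ≤ d) (h : b ^ 2 ≤ a * d)
    (ha' : 0 ≤ a') (hd' : 0 ≤ d') (h' : b' ^ 2 ≤ a' * d') : 2 * (b * b') ≤ a * d' + a' * d := by
  have h1 : (b * b') ^ 2 ≤ (a * d) * (a' * d') := by
    rw [mul_pow]
    exact mul_le_mul h h' (sq_nonneg _) (mul_nonneg ha hd)
  have h2 : (2 * (b * b')) ^ 2 ≤ (a * d' + a' * d) ^ 2 := by
    nlinarith [sq_nonneg (a * d' - a' * d)]
  have h3 : 0 ≤ a * d' + a' * d := by positivity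
  exact le_of_sq_le_sq h2 h3

lemma cone_add {x y : Fin 5 → ℝ} (hx : x ∈ cone) (hy : y ∈ cone) : x + y ∈ cone := by
  obtain ⟨h0, h3, h4, h1, h2⟩ := hx
  obtain ⟨k0, k3, k4, k1, k2⟩ := hy
  refine ⟨add_nonneg h0 k0, add_nonneg h3 k3, add_nonneg h4 k4, ?_, ?_⟩
  · have := cross h0 h3 h1 k0 k3 k1
    simp only [Pi.add_apply]
    nlinarith
  · have := cross h0 h4 h2 k0 k4 k2
    simp only [Pi.add_apply]
    nlinarith

lemma cone_smul {c : ℝ} (hc : 0 ≤ c) {x : Fin 5 → ℝ} (hx : x ∈ cone) : c • x ∈ cone := by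
  obtain ⟨h0, h3, h4, h1, h2⟩ := hx
  simp only [cone, Set.mem_ofPred_eq, Pi.smul_apply, smul_eq_mul]
  refine ⟨mul_nonneg hc h0, mul_nonneg hc h3, mul_nonneg hc h4, ?_, ?_⟩
  · nlinarith [mul_le_mul_of_nonneg_left h1 (sq_nonneg c)]
  · nlinarith [mul_le_mul_of_nonneg_left h2 (sq_nonneg c)]

lemma cone_closed : IsClosed cone := by
  have h1 : IsClosed {x : Fin 5 → ℝ | 0 ≤ x 0} := isClosed_le continuous_const (continuous_apply 0)
  have h2 : IsClosed {x : Fin 5 → ℝ | 0 ≤ x 3} := isClosed_le continuous_const (continuous_apply 3)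
  have h3 : IsClosed {x : Fin 5 → ℝ | 0 ≤ x 4} := isClosed_le continuous_const (continuous_apply 4)
  have h4 : IsClosed {x : Fin 5 → ℝ | x 1 ^ 2 ≤ x 0 * x 3} :=
    isClosed_le (by fun_prop) (by fun_prop)
  have h5 : IsClosed {x : Fin 5 → ℝ | x 2 ^ 2 ≤ x 0 * x 4} :=
    isClosed_le (by fun_prop) (by fun_prop)
  exact h1.inter (h2.inter (h3.inter (h4.inter h5)))

lemma cone_pointed {x : Fin 5 → ℝ} (hx : x ∈ cone) (hx' : -x ∈ cone) : x = 0 := by
  obtain ⟨h0, h3, h4, h1, h2⟩ := hx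
  obtain ⟨k0, k3, k4, -, -⟩ := hx'
  simp only [Pi.neg_apply] at k0 k3 k4
  have e0 : x 0 = 0 := by linarith
  have e3 : x 3 = 0 := by linarith
  have e4 : x 4 = 0 := by linarith
  rw [e0, zero_mul] at h1 h2
  have e1 : x 1 = 0 := by nlinarith
  have e2 : x 2 = 0 := by nlinarith
  funext i
  fin_cases i
  · exact e0
  · exact e1
  · exact e2
  · exact e3
  · exact e4

/-- the strict cone -/
def strictCone : Set (Fin 5 → ℝ) :=
  {x | 0 < x 0 ∧ 0 < x 3 ∧ 0 < x 4 ∧ x 1 ^ 2 < x 0 * x 3 ∧ x 2 ^ 2 < x 0 * x 4}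

/-- an interior point -/
def base : Fin 5 → ℝ := ![1, 0, 0, 1, 1]

lemma strict_of_sub {x : Fin 5 → ℝ} {δ : ℝ} (hδ : 0 < δ) (h : x - δ • base ∈ cone) :
    x ∈ strictCone := by
  obtain ⟨h0, h3, h4, h1, h2⟩ := h
  simp [base] at h0 h3 h4 h1 h2
  refine ⟨by linarith, by linarith, by linarith, ?_, ?_⟩
  · nlinarith
  · nlinarith

lemma interior_strict {x : Fin 5 → ℝ} (hx : x ∈ interior cone) : x ∈ strictCone := by
  have hcont : Continuous (fun δ : ℝ => x - δ • base) := by fun_prop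
  have h0 : (fun δ : ℝ => x - δ • base) 0 ∈ interior cone := by simpa using hx
  have hmem := (hcont.tendsto 0).eventually (isOpen_interior.mem_nhds h0)
  obtain ⟨r, hr, hball⟩ := Metric.eventually_nhds_iff.mp hmem
  have h1 := hball (y := r / 2) (by rw [Real.dist_eq, sub_zero, abs_of_pos (by linarith)]; linarith)
  exact strict_of_sub (by linarith) (interior_subset h1)

lemma strict_subset : strictCone ⊆ interior cone := by
  apply interior_maximal
  · rintro x ⟨h0, h3, h4, h1, h2⟩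
    exact ⟨h0.le, h3.le, h4.le, h1.le, h2.le⟩
  · have h1 : IsOpen {x : Fin 5 → ℝ | 0 < x 0} := isOpen_lt continuous_const (continuous_apply 0)
    have h2 : IsOpen {x : Fin 5 → ℝ | 0 < x 3} := isOpen_lt continuous_const (continuous_apply 3)
    have h3 : IsOpen {x : Fin 5 → ℝ | 0 < x 4} := isOpen_lt continuous_const (continuous_apply 4)
    have h4 : IsOpen {x : Fin 5 → ℝ | x 1 ^ 2 < x 0 * x 3} :=
      isOpen_lt (by fun_prop) (by fun_prop)
    have h5 : IsOpen {x : Fin 5 → ℝ | x 2 ^ 2 < x 0 * x 4} :=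
      isOpen_lt (by fun_prop) (by fun_prop)
    exact h1.inter (h2.inter (h3.inter (h4.inter h5)))

lemma base_mem : base ∈ interior cone := strict_subset (by
  refine ⟨?_, ?_, ?_, ?_, ?_⟩ <;> simp [base])

/-- The linear maps `(L A Lᵀ, M B Mᵀ)` with `L = [[l,0],[t,m]]`, `M = [[l,0],[s,n]]`. -/
def T (l m n t s : ℝ) : (Fin 5 → ℝ) →ₗ[ℝ] (Fin 5 → ℝ) where
  toFun x := ![l ^ 2 * x 0, l * (t * x 0 + m * x 1), l * (s * x 0 + n * x 2),
    t ^ 2 * x 0 + 2 * t * m * x 1 + m ^ 2 * x 3, s ^ 2 * x 0 + 2 * s * n * x 2 + n ^ 2 * x 4]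
  map_add' x y := by
    funext i
    fin_cases i <;> simp <;> ring
  map_smul' c x := by
    funext i
    fin_cases i <;> simp <;> ring

lemma T_comp (l m n t s l' m' n' t' s' : ℝ) (x : Fin 5 → ℝ) :
    T l m n t s (T l' m' n' t' s' x) =
      T (l * l') (m * m') (n * n') (t * l' + m * t') (s * l' + n * s') x := by
  funext i
  fin_cases i <;> simp [T] <;> ring

lemma T_one (x : Fin 5 → ℝ) : T 1 1 1 0 0 x = x := by
  funext i
  fin_cases i <;> simp [T]

lemma quad_nonneg {a b d t m : ℝ} (ha : 0 ≤ a) (hd : 0 ≤ d) (h : b ^ 2 ≤ a * d) :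
    0 ≤ t ^ 2 * a + 2 * t * m * b + m ^ 2 * d := by
  have h1 := cross ha hd h (a' := m ^ 2) (b' := t * m) (d' := t ^ 2) (sq_nonneg _) (sq_nonneg _)
    (by nlinarith)
  have h2 := cross ha hd h (a' := m ^ 2) (b' := -(t * m)) (d' := t ^ 2) (sq_nonneg _) (sq_nonneg _)
    (by nlinarith)
  nlinarith

lemma T_mem (l m n t s : ℝ) {x : Fin 5 → ℝ} (hx : x ∈ cone) : T l m n t s x ∈ cone := by
  obtain ⟨h0, h3, h4, h1, h2⟩ := hx
  refine ⟨?_, ?_, ?_, ?_, ?_⟩
  · simp only [T, LinearMap.coe_mk, AddHom.coe_mk]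
    change 0 ≤ l ^ 2 * x 0
    positivity
  · change 0 ≤ t ^ 2 * x 0 + 2 * t * m * x 1 + m ^ 2 * x 3
    exact quad_nonneg h0 h3 h1
  · change 0 ≤ s ^ 2 * x 0 + 2 * s * n * x 2 + n ^ 2 * x 4
    exact quad_nonneg h0 h4 h2
  · change (l * (t * x 0 + m * x 1)) ^ 2 ≤ (l ^ 2 * x 0) *
      (t ^ 2 * x 0 + 2 * t * m * x 1 + m ^ 2 * x 3)
    nlinarith [mul_le_mul_of_nonneg_left h1 (sq_nonneg (l * m))]
  · change (l * (s * x 0 + n * x 2)) ^ 2 ≤ (l ^ 2 * x 0) *
      (s ^ 2 * x 0 + 2 * s * n * x 2 + n ^ 2 * x 4)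
    nlinarith [mul_le_mul_of_nonneg_left h2 (sq_nonneg (l * n))]

lemma exists_aut {u : Fin 5 → ℝ} (hu : u ∈ strictCone) :
    ∃ A : (Fin 5 → ℝ) ≃ₗ[ℝ] (Fin 5 → ℝ), A '' cone = cone ∧ A base = u := by
  obtain ⟨h0, h3, h4, h1, h2⟩ := hu
  set l := Real.sqrt (u 0) with hl
  have hl0 : 0 < l := Real.sqrt_pos.mpr h0
  have hl2 : l ^ 2 = u 0 := Real.sq_sqrt h0.le
  have hm' : 0 < u 3 - u 1 ^ 2 / u 0 := by
    rw [sub_pos, div_lt_iff₀ h0]; linarith
  have hn' : 0 < u 4 - u 2 ^ 2 / u 0 := by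
    rw [sub_pos, div_lt_iff₀ h0]; linarith
  set m := Real.sqrt (u 3 - u 1 ^ 2 / u 0) with hm
  set n := Real.sqrt (u 4 - u 2 ^ 2 / u 0) with hn
  have hm0 : 0 < m := Real.sqrt_pos.mpr hm'
  have hn0 : 0 < n := Real.sqrt_pos.mpr hn'
  have hm2 : m ^ 2 = u 3 - u 1 ^ 2 / u 0 := Real.sq_sqrt hm'.le
  have hn2 : n ^ 2 = u 4 - u 2 ^ 2 / u 0 := Real.sq_sqrt hn'.le
  have e1 : ∀ x, T l m n (u 1 / l) (u 2 / l)
      (T (1 / l) (1 / m) (1 / n) (-(u 1 / l) / (l * m)) (-(u 2 / l) / (l * n)) x) = x := by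
    intro x
    rw [T_comp]
    have a1 : l * (1 / l) = 1 := by field_simp
    have a2 : m * (1 / m) = 1 := by field_simp
    have a3 : n * (1 / n) = 1 := by field_simp
    have a4 : u 1 / l * (1 / l) + m * (-(u 1 / l) / (l * m)) = 0 := by field_simp; ring
    have a5 : u 2 / l * (1 / l) + n * (-(u 2 / l) / (l * n)) = 0 := by field_simp; ring
    rw [a1, a2, a3, a4, a5, T_one]
  have e2 : ∀ x, T (1 / l) (1 / m) (1 / n) (-(u 1 / l) / (l * m)) (-(u 2 / l) / (l * n))
      (T l m n (u 1 / l) (u 2 / l) x) = x := by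
    intro x
    rw [T_comp]
    have a1 : 1 / l * l = 1 := by field_simp
    have a2 : 1 / m * m = 1 := by field_simp
    have a3 : 1 / n * n = 1 := by field_simp
    have a4 : -(u 1 / l) / (l * m) * l + 1 / m * (u 1 / l) = 0 := by field_simp; ring
    have a5 : -(u 2 / l) / (l * n) * l + 1 / n * (u 2 / l) = 0 := by field_simp; ring
    rw [a1, a2, a3, a4, a5, T_one]
  refine ⟨LinearEquiv.ofLinearMap (T l m n (u 1 / l) (u 2 / l))
    (T (1 / l) (1 / m) (1 / n) (-(u 1 / l) / (l * m)) (-(u 2 / l) / (l * n)))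
    (LinearMap.ext e1) (LinearMap.ext e2), ?_, ?_⟩
  · ext x
    constructor
    · rintro ⟨y, hy, rfl⟩
      exact T_mem _ _ _ _ _ hy
    · intro hx
      exact ⟨_, T_mem (1 / l) (1 / m) (1 / n) (-(u 1 / l) / (l * m)) (-(u 2 / l) / (l * n)) hx, e1 x⟩
  · funext i
    fin_cases i
    · change l ^ 2 * 1 = u 0
      rw [hl2, mul_one]
    · change l * (u 1 / l * 1 + m * 0) = u 1
      field_simp; ring
    · change l * (u 2 / l * 1 + n * 0) = u 2
      field_simp; ring
    · change (u 1 / l) ^ 2 * 1 + 2 * (u 1 / l) * m * 0 + m ^ 2 * 1 = u 3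
      rw [hm2, div_pow, hl2]; ring
    · change (u 2 / l) ^ 2 * 1 + 2 * (u 2 / l) * n * 0 + n ^ 2 * 1 = u 4
      rw [hn2, div_pow, hl2]; ring

lemma cone_homogeneous : IsHomogeneousCone cone where
  closed := cone_closed
  add_mem _ hx _ hy := cone_add hx hy
  smul_mem _ hc _ hx := cone_smul hc hx
  pointed _ hx hx' := cone_pointed hx hx'
  full := ⟨base, base_mem⟩
  transitive := by
    intro u hu v hv
    obtain ⟨A, hA, hAu⟩ := exists_aut (interior_strict hu)
    obtain ⟨B, hB, hBv⟩ := exists_aut (interior_strict hv)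
    refine ⟨A.symm.trans B, ?_, ?_⟩
    · have h1 : A.symm '' cone = cone := by
        conv_lhs => rw [← hA]
        rw [← Set.image_comp]
        convert Set.image_id cone
        funext x
        simp
      have h2 : (A.symm.trans B : (Fin 5 → ℝ) → (Fin 5 → ℝ)) '' cone = B '' (A.symm '' cone) := by
        rw [← Set.image_comp]
        rfl
      rw [h2, h1, hB]
    · rw [LinearEquiv.trans_apply, ← hAu, LinearEquiv.symm_apply_apply, hBv]

lemma ray_extreme : IsExtremeRay cone ray₀ := by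
  refine ⟨?_, ?_, ?_⟩
  · refine ⟨?_, ?_, ?_, ?_, ?_⟩ <;> simp [ray₀]
  · intro h
    have := congrFun h 0
    simp [ray₀] at this
  · rintro u hu v hv ⟨s, hs, huv⟩
    obtain ⟨h0, h3, h4, h1, h2⟩ := hu
    obtain ⟨k0, k3, k4, k1, k2⟩ := hv
    have e3 := congrFun huv 3
    have e4 := congrFun huv 4
    simp [ray₀] at e3 e4
    have u3 : u 3 = 0 := by linarith
    have v3 : v 3 = 0 := by linarith
    have u4 : u 4 = 0 := by linarith
    have v4 : v 4 = 0 := by linarith
    rw [u3, mul_zero] at h1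
    rw [v3, mul_zero] at k1
    rw [u4, mul_zero] at h2
    rw [v4, mul_zero] at k2
    have u1 : u 1 = 0 := by nlinarith
    have u2 : u 2 = 0 := by nlinarith
    have v1 : v 1 = 0 := by nlinarith
    have v2 : v 2 = 0 := by nlinarith
    refine ⟨⟨u 0, h0, ?_⟩, ⟨v 0, k0, ?_⟩⟩
    · funext i
      fin_cases i <;> simp [ray₀, u1, u2, u3, u4]
    · funext i
      fin_cases i <;> simp [ray₀, v1, v2, v3, v4]

/-! ### Divisibility -/

/-- Division by `x_i² - x_u x_v`, which is monic in `x_i`. -/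
lemma division (i u v : Fin 5) (hu : u ≠ i) (hv : v ≠ i) (p : MvPolynomial (Fin 5) ℝ) :
    ∃ g A B : MvPolynomial (Fin 5) ℝ, p = (X i ^ 2 - X u * X v) * g + A + X i * B ∧
      (∀ (x : Fin 5 → ℝ) (b : ℝ), eval (Function.update x i b) A = eval x A) ∧
      (∀ (x : Fin 5 → ℝ) (b : ℝ), eval (Function.update x i b) B = eval x B) := by
  induction p using MvPolynomial.induction_on with
  | C a => exact ⟨0, C a, 0, by simp, fun x b => by simp, fun x b => by simp⟩
  | add p q hp hq =>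
    obtain ⟨g1, A1, B1, h1, hA1, hB1⟩ := hp
    obtain ⟨g2, A2, B2, h2, hA2, hB2⟩ := hq
    refine ⟨g1 + g2, A1 + A2, B1 + B2, by rw [h1, h2]; ring, fun x b => ?_, fun x b => ?_⟩
    · rw [map_add, map_add, hA1, hA2]
    · rw [map_add, map_add, hB1, hB2]
  | mul_X p j hp =>
    obtain ⟨g, A, B, h, hA, hB⟩ := hp
    by_cases hj : j = i
    · subst hj
      refine ⟨g * X j + B, X u * X v * B, A, by rw [h]; ring, fun x b => ?_, hA⟩
      simp only [map_mul, eval_X, hB]
      rw [Function.update_of_ne hu, Function.update_of_ne hv]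
    · refine ⟨g * X j, A * X j, B * X j, by rw [h]; ring, fun x b => ?_, fun x b => ?_⟩
      · rw [map_mul, map_mul, hA, eval_X, eval_X, Function.update_of_ne hj]
      · rw [map_mul, map_mul, hB, eval_X, eval_X, Function.update_of_ne hj]

/-- A polynomial vanishing on the two-sheeted hypersurface `x_i² = x_u x_v` over a box is divisible
by `x_i² - x_u x_v`. -/
lemma dvd_of_vanish (i u v : Fin 5) (hu : u ≠ i) (hv : v ≠ i) (p : MvPolynomial (Fin 5) ℝ)
    (S : Fin 5 → Set ℝ) (hS : ∀ j, (S j).Infinite)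
    (hpos : ∀ x ∈ Set.pi Set.univ S, 0 < x u * x v)
    (h : ∀ x ∈ Set.pi Set.univ S, ∀ b : ℝ, b ^ 2 = x u * x v →
      eval (Function.update x i b) p = 0) : (X i ^ 2 - X u * X v) ∣ p := by
  obtain ⟨g, A, B, hp, hA, hB⟩ := division i u v hu hv p
  have key : ∀ x ∈ Set.pi Set.univ S, eval x A = 0 ∧ eval x B = 0 := by
    intro x hx
    have h0 := hpos x hx
    set r := Real.sqrt (x u * x v) with hr
    have hr0 : 0 < r := Real.sqrt_pos.mpr h0
    have hr2 : r ^ 2 = x u * x v := Real.sq_sqrt h0.le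
    have e : ∀ b : ℝ, b ^ 2 = x u * x v → eval x A + b * eval x B = 0 := by
      intro b hb
      have h1 := h x hx b hb
      rw [hp] at h1
      simp only [map_add, map_mul, map_sub, map_pow, eval_X, hA, hB, Function.update_self,
        Function.update_of_ne hu, Function.update_of_ne hv] at h1
      rw [hb] at h1
      linarith
    have e1 := e r hr2
    have e2 := e (-r) (by rw [neg_sq, hr2])
    have hB0 : r * eval x B = 0 := by linarith
    have hB1 : eval x B = 0 := (mul_eq_zero.mp hB0).resolve_left hr0.ne'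
    exact ⟨by rw [hB1, mul_zero, add_zero] at e1; exact e1, hB1⟩
  have hA0 : A = 0 := funext_set S hS (fun x hx => by rw [(key x hx).1, map_zero])
  have hB0 : B = 0 := funext_set S hS (fun x hx => by rw [(key x hx).2, map_zero])
  rw [hp, hA0, hB0]
  exact ⟨g, by ring⟩

lemma charPoly_eval {n : ℕ} (p : MvPolynomial (Fin n) ℝ) (e x : Fin n → ℝ) (t : ℝ) :
    (charPoly p e x).eval t = eval (t • e - x) p := by
  rw [charPoly]
  induction p using MvPolynomial.induction_on with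
  | C a => simp
  | add p q hp hq => rw [map_add, map_add, Polynomial.eval_add, hp, hq]
  | mul_X p i hp =>
    rw [map_mul, map_mul, Polynomial.eval_mul, hp, aeval_X, eval_X]
    simp
    left
    ring

lemma charPoly_mul {n : ℕ} (p q : MvPolynomial (Fin n) ℝ) (e x : Fin n → ℝ) :
    charPoly (p * q) e x = charPoly p e x * charPoly q e x := by
  rw [charPoly, map_mul]; rfl

lemma eval_smul_hom {n : ℕ} {p : MvPolynomial (Fin n) ℝ} {d : ℕ} (hp : p.IsHomogeneous d)
    (c : ℝ) (x : Fin n → ℝ) : eval (c • x) p = c ^ d * eval x p := by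
  rw [eval_eq', eval_eq', Finset.mul_sum]
  refine Finset.sum_congr rfl (fun m hm => ?_)
  have hdeg : ∑ i, m i = d := by
    have h := hp (mem_support_iff.mp hm)
    rw [Finsupp.weight_apply, Finsupp.sum_fintype _ _ (by simp)] at h
    simpa using h
  simp only [Pi.smul_apply, smul_eq_mul, mul_pow]
  rw [Finset.prod_mul_distrib, Finset.prod_pow_eq_pow_sum, hdeg]
  ring

lemma charPoly_ne_zero {n : ℕ} {p : MvPolynomial (Fin n) ℝ} {e : Fin n → ℝ}
    (h : IsHyperbolic p e) (x : Fin n → ℝ) : charPoly p e x ≠ 0 := by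
  obtain ⟨⟨d, hd⟩, hpos, -⟩ := h
  intro h0
  -- `p(e - s x) = s^d p(e/s - x) = 0` for all `s ≠ 0`, so `p(e) = 0`
  have h1 : ∀ s : ℝ, s ≠ 0 → eval (e - s • x) p = 0 := by
    intro s hs
    have h2 : e - s • x = s • ((1 / s) • e - x) := by
      rw [smul_sub, smul_smul, mul_one_div_cancel hs, one_smul]
    rw [h2, eval_smul_hom hd, ← charPoly_eval, h0]
    simp
  let P : Polynomial ℝ := aeval (fun i => Polynomial.C (e i) - Polynomial.C (x i) * Polynomial.X) p
  have hP : ∀ s, P.eval s = eval (e - s • x) p := by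
    intro s
    change (aeval _ p : Polynomial ℝ).eval s = _
    clear h0 h1 hpos hd
    induction p using MvPolynomial.induction_on with
    | C a => simp
    | add p q hp hq => rw [map_add, map_add, Polynomial.eval_add, hp, hq]
    | mul_X p i hp =>
      rw [map_mul, map_mul, Polynomial.eval_mul, hp, aeval_X, eval_X]
      simp
      left
      ring
  have hP0 : P = 0 := by
    apply Polynomial.eq_zero_of_infinite_isRoot
    apply Set.Infinite.mono _ (Set.Ioi_infinite (0 : ℝ))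
    intro s hs
    change P.eval s = 0
    rw [hP, h1 s (ne_of_gt hs)]
  have := hP 0
  rw [hP0] at this
  simp at this
  linarith

lemma mem_hypCone {n : ℕ} {p : MvPolynomial (Fin n) ℝ} {e : Fin n → ℝ}
    (h : IsHyperbolic p e) (x : Fin n → ℝ) :
    x ∈ hypCone p e ↔ ∀ t : ℝ, eval (t • e - x) p = 0 → 0 ≤ t := by
  simp only [hypCone, Set.mem_ofPred_eq, Polynomial.mem_roots (charPoly_ne_zero h x),
    Polynomial.IsRoot.def, charPoly_eval]

/-- `p` vanishes at the points of `Λ₊(p,e)` that leave the cone in direction `-e`. -/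
lemma vanish_boundary {n : ℕ} {p : MvPolynomial (Fin n) ℝ} {e : Fin n → ℝ}
    (h : IsHyperbolic p e) (y : Fin n → ℝ) (hy : y ∈ hypCone p e) (δ : ℝ) (hδ : 0 < δ)
    (hout : ∀ ε, 0 < ε → ε < δ → y - ε • e ∉ hypCone p e) : eval y p = 0 := by
  have h0 : eval (-y) p = 0 := by
    -- roots of `t ↦ p(t e - y)` in `[0, ε)` for every small `ε`
    by_contra hne
    have hcont : Continuous (fun t : ℝ => (charPoly p e y).eval t) := Polynomial.continuous _
    have hne' : (charPoly p e y).eval 0 ≠ 0 := by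
      rw [charPoly_eval]; simpa using hne
    obtain ⟨r, hr, hball⟩ := Metric.eventually_nhds_iff.mp
      ((hcont.tendsto 0).eventually (isOpen_ne.mem_nhds hne'))
    set ε := min r δ / 2 with hε
    have hε0 : 0 < ε := by rw [hε]; positivity
    have hεr : ε < r := by
      rw [hε]; have := min_le_left r δ; have := lt_min hr hδ; linarith
    have hεδ : ε < δ := by
      rw [hε]; have := min_le_right r δ; have := lt_min hr hδ; linarith
    have h1 := hout ε hε0 hεδ
    rw [mem_hypCone h] at h1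
    push Not at h1
    obtain ⟨t, ht, ht0⟩ := h1
    have h2 : t • e - (y - ε • e) = (t + ε) • e - y := by module
    rw [h2] at ht
    have h3 := (mem_hypCone h y).mp hy (t + ε) ht
    have h4 := hball (y := t + ε) (by
      rw [Real.dist_eq, sub_zero, abs_of_nonneg h3]; linarith)
    exact h4 (by rw [charPoly_eval]; exact ht)
  obtain ⟨⟨d, hd⟩, -, -⟩ := h
  have h5 : eval y p = (-1) ^ d * eval (-y) p := by
    rw [← eval_smul_hom hd]; simp
  rw [h5, h0, mul_zero]

/-- `e` is an interior point of the hyperbolicity cone. -/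
lemma exists_sub_mem {n : ℕ} {p : MvPolynomial (Fin n) ℝ} {e : Fin n → ℝ}
    (h : IsHyperbolic p e) (y : Fin n → ℝ) : ∃ δ : ℝ, 0 < δ ∧ e - δ • y ∈ hypCone p e := by
  -- choose `t` above all roots of `t ↦ p(t e - y)`
  obtain ⟨M, hM⟩ : ∃ M : ℝ, ∀ t ∈ (charPoly p e y).roots, t ≤ M := by
    have hfin := ((charPoly p e y).roots.toFinset).finite_toSet.bddAbove
    obtain ⟨M, hM⟩ := hfin
    exact ⟨M, fun t ht => hM (by simpa using ht)⟩
  set t := max M 1 with ht
  have ht0 : 0 < t := lt_of_lt_of_le one_pos (le_max_right _ _)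
  refine ⟨1 / t, by positivity, ?_⟩
  rw [mem_hypCone h]
  intro s hs
  by_contra hneg
  push Not at hneg
  obtain ⟨⟨d, hd⟩, -, -⟩ := id h
  -- `s e - (e - y/t) = -(1/t) (t(1-s) e - y)`
  have h1 : s • e - (e - (1 / t) • y) = (-(1 / t)) • ((t * (1 - s)) • e - y) := by
    rw [smul_sub, smul_smul]
    have : -(1 / t) * (t * (1 - s)) = s - 1 := by field_simp; ring
    rw [this]
    module
  rw [h1, eval_smul_hom hd] at hs
  have h2 : eval ((t * (1 - s)) • e - y) p = 0 := by
    refine (mul_eq_zero.mp hs).resolve_left (pow_ne_zero _ ?_)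
    exact neg_ne_zero.mpr (by positivity)
  have h3 : t * (1 - s) ≤ M := hM _ (by
    rw [Polynomial.mem_roots (charPoly_ne_zero h y), Polynomial.IsRoot.def, charPoly_eval]
    exact h2)
  have h4 : M ≤ t := le_max_left _ _
  nlinarith

/-- the strict form of `cross` -/
lemma cross_strict {a b d a' b' d' : ℝ} (ha : 0 < a) (hd : 0 < d) (h : b ^ 2 = a * d)
    (ha' : 0 < a') (hd' : 0 < d') (h' : b' ^ 2 < a' * d') : 0 < a * d' + d * a' - 2 * (b * b') := by
  have hb : 0 < b ^ 2 := by rw [h]; positivity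
  have h1 : (2 * (b * b')) ^ 2 < (a * d' + d * a') ^ 2 := by
    have h2 : (b * b') ^ 2 < (a * d) * (a' * d') := by
      rw [mul_pow, ← h]
      exact mul_lt_mul_of_pos_left h' hb
    nlinarith [sq_nonneg (a * d' - d * a')]
  have h3 : 0 ≤ a * d' + d * a' := by positivity
  have := lt_of_pow_lt_pow_left₀ 2 h3 h1
  linarith

/-- points leaving the block `x_i² ≤ x_0 x_v` -/
lemma leaving {a b d e0 e1 e3 : ℝ} (ha : 0 < a) (hd : 0 < d) (h : b ^ 2 = a * d)
    (h0 : 0 < e0) (h3 : 0 < e3) (h1 : e1 ^ 2 < e0 * e3) :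
    ∃ δ : ℝ, 0 < δ ∧ ∀ ε, 0 < ε → ε < δ →
      ¬ ((b - ε * e1) ^ 2 ≤ (a - ε * e0) * (d - ε * e3)) := by
  have hs := cross_strict ha hd h h0 h3 h1
  have hq : 0 < e0 * e3 - e1 ^ 2 := by linarith
  refine ⟨(a * e3 + d * e0 - 2 * (b * e1)) / (e0 * e3 - e1 ^ 2), by positivity, ?_⟩
  intro ε hε hlt hle
  rw [lt_div_iff₀ hq] at hlt
  have h2 : 0 < ε * ((a * e3 + d * e0 - 2 * (b * e1)) - ε * (e0 * e3 - e1 ^ 2)) :=
    mul_pos hε (by linarith)
  nlinarith

lemma infinite_Ioo (a b : ℝ) (h : a < b) : (Set.Ioo a b).Infinite := Set.Ioo_infinite h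

theorem rank_ge_two (p : MvPolynomial (Fin 5) ℝ) (e : Fin 5 → ℝ) (h : IsHyperbolic p e)
    (hK : cone = hypCone p e) : 2 ≤ rank p e ray₀ := by
  -- `e` is interior
  have he : e ∈ strictCone := by
    obtain ⟨δ, hδ, hmem⟩ := exists_sub_mem h base
    rw [← hK] at hmem
    exact strict_of_sub hδ hmem
  obtain ⟨e0, e3, e4, e1, e2⟩ := he
  -- vanishing on the first piece of the boundary
  have van1 : ∀ y ∈ cone, 0 < y 0 → 0 < y 3 → y 1 ^ 2 = y 0 * y 3 → eval y p = 0 := by
    intro y hy h0 h3 h1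
    obtain ⟨δ, hδ, hout⟩ := leaving h0 h3 h1 e0 e3 e1
    refine vanish_boundary h y (hK ▸ hy) δ hδ (fun ε hε hlt hmem => ?_)
    rw [← hK] at hmem
    exact hout ε hε hlt (by simpa using hmem.2.2.2.1)
  have van2 : ∀ y ∈ cone, 0 < y 0 → 0 < y 4 → y 2 ^ 2 = y 0 * y 4 → eval y p = 0 := by
    intro y hy h0 h3 h1
    obtain ⟨δ, hδ, hout⟩ := leaving h0 h3 h1 e0 e4 e2
    refine vanish_boundary h y (hK ▸ hy) δ hδ (fun ε hε hlt hmem => ?_)
    rw [← hK] at hmem
    exact hout ε hε hlt (by simpa using hmem.2.2.2.2)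
  -- first factor
  have d1 : (X 1 ^ 2 - X 0 * X 3 : MvPolynomial (Fin 5) ℝ) ∣ p := by
    refine dvd_of_vanish 1 0 3 (by decide) (by decide) p
      ![Set.Ioo 1 2, Set.univ, Set.Ioo 0 1, Set.Ioo 1 2, Set.Ioo 1 2] ?_ ?_ ?_
    · intro j
      fin_cases j
      · exact infinite_Ioo _ _ (by norm_num)
      · exact Set.infinite_univ
      · exact infinite_Ioo _ _ (by norm_num)
      · exact infinite_Ioo _ _ (by norm_num)
      · exact infinite_Ioo _ _ (by norm_num)
    · intro x hx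
      have x0 : x 0 ∈ Set.Ioo (1 : ℝ) 2 := hx 0 (Set.mem_univ _)
      have x3 : x 3 ∈ Set.Ioo (1 : ℝ) 2 := hx 3 (Set.mem_univ _)
      have := x0.1
      have := x3.1
      positivity
    · intro x hx b hb
      have x0 : x 0 ∈ Set.Ioo (1 : ℝ) 2 := hx 0 (Set.mem_univ _)
      have x2 : x 2 ∈ Set.Ioo (0 : ℝ) 1 := hx 2 (Set.mem_univ _)
      have x3 : x 3 ∈ Set.Ioo (1 : ℝ) 2 := hx 3 (Set.mem_univ _)
      have x4 : x 4 ∈ Set.Ioo (1 : ℝ) 2 := hx 4 (Set.mem_univ _)
      have u0 : Function.update x 1 b 0 = x 0 := Function.update_of_ne (by decide) _ _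
      have u1 : Function.update x 1 b 1 = b := Function.update_self _ _ _
      have u2 : Function.update x 1 b 2 = x 2 := Function.update_of_ne (by decide) _ _
      have u3 : Function.update x 1 b 3 = x 3 := Function.update_of_ne (by decide) _ _
      have u4 : Function.update x 1 b 4 = x 4 := Function.update_of_ne (by decide) _ _
      apply van1
      · refine ⟨?_, ?_, ?_, ?_, ?_⟩
        · rw [u0]; linarith [x0.1]
        · rw [u3]; linarith [x3.1]
        · rw [u4]; linarith [x4.1]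
        · rw [u0, u1, u3]; exact hb.le
        · rw [u0, u2, u4]; nlinarith [x0.1, x4.1, x2.1, x2.2]
      · rw [u0]; linarith [x0.1]
      · rw [u3]; linarith [x3.1]
      · rw [u0, u1, u3]; exact hb
  obtain ⟨g, hg⟩ := d1
  have d2 : (X 2 ^ 2 - X 0 * X 4 : MvPolynomial (Fin 5) ℝ) ∣ g := by
    refine dvd_of_vanish 2 0 4 (by decide) (by decide) g
      ![Set.Ioo 1 2, Set.Ioo 0 1, Set.univ, Set.Ioo 1 2, Set.Ioo 1 2] ?_ ?_ ?_
    · intro j
      fin_cases j
      · exact infinite_Ioo _ _ (by norm_num)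
      · exact infinite_Ioo _ _ (by norm_num)
      · exact Set.infinite_univ
      · exact infinite_Ioo _ _ (by norm_num)
      · exact infinite_Ioo _ _ (by norm_num)
    · intro x hx
      have x0 : x 0 ∈ Set.Ioo (1 : ℝ) 2 := hx 0 (Set.mem_univ _)
      have x4 : x 4 ∈ Set.Ioo (1 : ℝ) 2 := hx 4 (Set.mem_univ _)
      have := x0.1
      have := x4.1
      positivity
    · intro x hx b hb
      have x0 : x 0 ∈ Set.Ioo (1 : ℝ) 2 := hx 0 (Set.mem_univ _)
      have x1 : x 1 ∈ Set.Ioo (0 : ℝ) 1 := hx 1 (Set.mem_univ _)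
      have x3 : x 3 ∈ Set.Ioo (1 : ℝ) 2 := hx 3 (Set.mem_univ _)
      have x4 : x 4 ∈ Set.Ioo (1 : ℝ) 2 := hx 4 (Set.mem_univ _)
      have u0 : Function.update x 2 b 0 = x 0 := Function.update_of_ne (by decide) _ _
      have u1 : Function.update x 2 b 1 = x 1 := Function.update_of_ne (by decide) _ _
      have u2 : Function.update x 2 b 2 = b := Function.update_self _ _ _
      have u3 : Function.update x 2 b 3 = x 3 := Function.update_of_ne (by decide) _ _
      have u4 : Function.update x 2 b 4 = x 4 := Function.update_of_ne (by decide) _ _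
      have hlt : x 1 ^ 2 < x 0 * x 3 := by nlinarith [x0.1, x3.1, x1.1, x1.2]
      have hp0 : eval (Function.update x 2 b) p = 0 := by
        apply van2
        · refine ⟨?_, ?_, ?_, ?_, ?_⟩
          · rw [u0]; linarith [x0.1]
          · rw [u3]; linarith [x3.1]
          · rw [u4]; linarith [x4.1]
          · rw [u0, u1, u3]; exact hlt.le
          · rw [u0, u2, u4]; exact hb.le
        · rw [u0]; linarith [x0.1]
        · rw [u4]; linarith [x4.1]
        · rw [u0, u2, u4]; exact hb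
      rw [hg, map_mul] at hp0
      refine (mul_eq_zero.mp hp0).resolve_left ?_
      simp only [map_sub, map_mul, map_pow, eval_X, u0, u1, u3]
      linarith
  obtain ⟨r, hr⟩ := d2
  have hne := charPoly_ne_zero h ray₀
  have hfac : charPoly p e ray₀ = charPoly (X 1 ^ 2 - X 0 * X 3) e ray₀ *
      (charPoly (X 2 ^ 2 - X 0 * X 4) e ray₀ * charPoly r e ray₀) := by
    rw [← charPoly_mul, ← charPoly_mul, ← hr, ← hg]
  rw [hfac] at hne
  have hne1 := left_ne_zero_of_mul hne
  have hne23 := right_ne_zero_of_mul hne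
  have hne2 := left_ne_zero_of_mul hne23
  -- nonzero roots of the two quadratic factors
  have root1 : (e 3 / (e 0 * e 3 - e 1 ^ 2)) ∈
      (charPoly (X 1 ^ 2 - X 0 * X 3) e ray₀).roots.filter (· ≠ 0) := by
    have hq : 0 < e 0 * e 3 - e 1 ^ 2 := by linarith
    rw [Multiset.mem_filter, Polynomial.mem_roots hne1, Polynomial.IsRoot.def, charPoly_eval]
    refine ⟨?_, by positivity⟩
    simp only [map_sub, map_mul, map_pow, eval_X, Pi.sub_apply, Pi.smul_apply, smul_eq_mul,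
      show ray₀ 0 = 1 from rfl, show ray₀ 1 = 0 from rfl, show ray₀ 3 = 0 from rfl]
    have hT : e 3 / (e 0 * e 3 - e 1 ^ 2) * (e 0 * e 3 - e 1 ^ 2) = e 3 :=
      div_mul_cancel₀ _ hq.ne'
    generalize e 3 / (e 0 * e 3 - e 1 ^ 2) = t at hT
    linear_combination (-t) * hT
  have root2 : (e 4 / (e 0 * e 4 - e 2 ^ 2)) ∈
      (charPoly (X 2 ^ 2 - X 0 * X 4) e ray₀).roots.filter (· ≠ 0) := by
    have hq : 0 < e 0 * e 4 - e 2 ^ 2 := by linarith
    rw [Multiset.mem_filter, Polynomial.mem_roots hne2, Polynomial.IsRoot.def, charPoly_eval]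
    refine ⟨?_, by positivity⟩
    simp only [map_sub, map_mul, map_pow, eval_X, Pi.sub_apply, Pi.smul_apply, smul_eq_mul,
      show ray₀ 0 = 1 from rfl, show ray₀ 2 = 0 from rfl, show ray₀ 4 = 0 from rfl]
    have hT : e 4 / (e 0 * e 4 - e 2 ^ 2) * (e 0 * e 4 - e 2 ^ 2) = e 4 :=
      div_mul_cancel₀ _ hq.ne'
    generalize e 4 / (e 0 * e 4 - e 2 ^ 2) = t at hT
    linear_combination (-t) * hT
  have c1 := Multiset.card_pos_iff_exists_mem.mpr ⟨_, root1⟩
  have c2 := Multiset.card_pos_iff_exists_mem.mpr ⟨_, root2⟩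
  rw [rank, hfac, Polynomial.roots_mul hne, Polynomial.roots_mul hne23, Multiset.filter_add,
    Multiset.filter_add, Multiset.card_add, Multiset.card_add]
  omega

/-- **Main result.**  The dual Vinberg cone is a homogeneous cone which is not a ROG hyperbolicity
cone: it is a pointed, full-dimensional, closed convex cone with automorphism group transitive on
the interior, `ray₀` generates an extreme ray of it, and whenever it is the hyperbolicity cone of
some `p` hyperbolic along `e`, the rank of `ray₀` with respect to `p, e` is at least `2`. -/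
theorem result :
    IsHomogeneousCone cone ∧ IsExtremeRay cone ray₀ ∧
      ∀ (p : MvPolynomial (Fin 5) ℝ) (e : Fin 5 → ℝ), IsHyperbolic p e → cone = hypCone p e →
        2 ≤ rank p e ray₀ :=
  ⟨cone_homogeneous, ray_extreme, rank_ge_two⟩

end Pool.Agent.Results.MP_3ab8ef_ag.DualVinberg
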